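import Mathlib
import Pool.Agent.Helper21.DN.Stmts

/-!
Module AS of the crew project on MP_b6a655_nt: Artin-Schreier polynomials are irreducible if
they have no root.
-/

set_option autoImplicit false

namespace Pool.Agent.Helper21.DN

universe u

open Polynomial in
theorem st_AS : ST_AS.{u} := by
  intro p hp L _ _ a ha
  have hp1 := hp.out.one_lt
  have hmon : (X ^ p - X - C a : L[X]).Monic := by
    have h : (X ^ p - X - C a : L[X]) = X ^ p - (X + C a) := by ring
    rw [h]
    apply monic_X_pow_sub
    rw [degree_X_add_C]
    exact_mod_cast hp1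
  have hdeg : (X ^ p - X - C a : L[X]).natDegree = p := by
    have h : (X ^ p - X - C a : L[X]) = X ^ p - (X + C a) := by ring
    rw [h]
    apply natDegree_eq_of_degree_eq_some
    rw [degree_sub_eq_left_of_degree_lt, degree_X_pow]
    rw [degree_X_add_C, degree_X_pow]
    exact_mod_cast hp1
  have hne : (X ^ p - X - C a : L[X]) ≠ 1 := by
    intro h
    rw [h, natDegree_one] at hdeg
    omega
  rw [hmon.irreducible_iff_natDegree']
  refine ⟨hne, ?_⟩
  intro f g hf hg hfg hd
  rw [hdeg, Finset.mem_Ioc] at hd
  obtain ⟨d, hdd⟩ : ∃ d : ℕ, d = g.natDegree := ⟨_, rfl⟩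
  rw [← hdd] at hd
  have hdp : d < p := by
    have := hd.2
    omega
  have hd0 : (d : L) ≠ 0 := by
    intro h
    rw [CharP.cast_eq_zero_iff L p] at h
    have := Nat.le_of_dvd hd.1 h
    omega
  have hcharΩ : CharP (AlgebraicClosure L) p :=
    charP_of_injective_ringHom (algebraMap L (AlgebraicClosure L)).injective p
  obtain ⟨S, hS⟩ : ∃ S : L, S = - g.nextCoeff := ⟨_, rfl⟩
  have hsplit : (g.map (algebraMap L (AlgebraicClosure L))).Splits := IsAlgClosed.splits _
  have hgm : (g.map (algebraMap L (AlgebraicClosure L))).Monic := hg.map _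
  have hsum : algebraMap L (AlgebraicClosure L) S =
      (g.map (algebraMap L (AlgebraicClosure L))).roots.sum := by
    have h1 := hsplit.nextCoeff_eq_neg_sum_roots_of_monic hgm
    rw [nextCoeff_map (algebraMap L (AlgebraicClosure L)).injective] at h1
    rw [hS, map_neg, h1, neg_neg]
  have hcard : Multiset.card (g.map (algebraMap L (AlgebraicClosure L))).roots = d := by
    rw [← hsplit.natDegree_eq_card_roots, natDegree_map, hdd]
  have hroot : ∀ r ∈ (g.map (algebraMap L (AlgebraicClosure L))).roots,
      r ^ p - r = algebraMap L (AlgebraicClosure L) a := by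
    intro r hr
    have h1 : (g.map (algebraMap L (AlgebraicClosure L))).eval r = 0 :=
      (mem_roots'.mp hr).2
    have h2 : ((X ^ p - X - C a : L[X]).map (algebraMap L (AlgebraicClosure L))).eval r = 0 := by
      rw [← hfg, Polynomial.map_mul, eval_mul, h1, mul_zero]
    simp only [Polynomial.map_sub, Polynomial.map_pow, map_X, map_C, eval_sub, eval_pow, eval_X,
      eval_C] at h2
    exact sub_eq_zero.mp h2
  have hfrob : ∀ R : Multiset (AlgebraicClosure L),
      (∀ r ∈ R, r ^ p - r = algebraMap L (AlgebraicClosure L) a) →
      R.sum ^ p - R.sum = (Multiset.card R : AlgebraicClosure L) *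
        algebraMap L (AlgebraicClosure L) a := by
    intro R
    induction R using Multiset.induction_on with
    | empty => 
      intro _
      simp [hp.out.ne_zero]
    | cons x R ih =>
      intro h
      rw [Multiset.sum_cons, Multiset.card_cons, add_pow_char]
      have h1 := ih (fun r hr => h r (Multiset.mem_cons_of_mem hr))
      have h2 := h x (Multiset.mem_cons_self x R)
      push_cast
      linear_combination h1 + h2
  have h1 := hfrob _ hroot
  rw [← hsum, hcard] at h1
  have h2 : S ^ p - S = d * a := by
    apply (algebraMap L (AlgebraicClosure L)).injective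
    rw [map_sub, map_pow, map_mul, map_natCast]
    exact h1
  have h3 : (d : L) ^ p = d := by
    have := map_natCast (frobenius L p) d
    rw [frobenius_def] at this
    exact this
  apply ha (S / d)
  rw [div_pow, h3]
  field_simp
  linear_combination h2

end Pool.Agent.Helper21.DN
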