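import Mathlib
import Pool.Agent.Helper21.DN.Stmts

/-!
Module BCH of the crew project on MP_b6a655_nt: base change of the standing hypotheses.
-/

set_option autoImplicit false

namespace Pool.Agent.Helper21.DN

universe u

theorem st_BCH : ST_BCH.{u} := by
  intro k K L _ _ _ _ _ _ κ v hv E
  refine ⟨?_, ?_, ?_⟩
  · exact hv.tv
  · intro σ x
    exact hv.inv (σ.restrictScalars K) x
  · intro F
    exact hv.sub (F.restrictScalars K)

end Pool.Agent.Helper21.DN
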