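import Mathlib
import Pool.Agent.Helper21.DN.Stmts

/-!
Module QUO of the crew project on MP_b6a655_nt: the conductor of a quotient.
-/

set_option autoImplicit false

namespace Pool.Agent.Helper21.DN

universe u

theorem quo_main (hRAM : ST_RAM.{u}) (hTOW : ST_TOW.{u}) (hHBF : ST_HBF.{u})
    (hCOND : ST_COND.{u}) (p : ℕ) [Fact p.Prime] (k : Type u) [Field k] [CharP k p]
    [IsAlgClosed k] (M : Type u) [Field M] [Algebra (LaurentSeries k) M]
    [FiniteDimensional (LaurentSeries k) M] [IsGalois (LaurentSeries k) M]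
    (v : AddValuation M (WithTop ℤ)) (hv : ∀ x, v x = val k M x) (hRam : Ram (κ0 k) v)
    (hPM : IsPGroup p (M ≃ₐ[LaurentSeries k] M))
    (E : IntermediateField (LaurentSeries k) M) [Normal (LaurentSeries k) E]
    (hex : ∃ σ : M ≃ₐ[LaurentSeries k] M, σ ∉ E.fixingSubgroup) :
    (∀ σ : M ≃ₐ[LaurentSeries k] M, σ ∉ E.fixingSubgroup →
      phi (fun σ : M ≃ₐ[LaurentSeries k] M => s v σ) (s v σ) ≤ conductor k E) ∧
    ∃ σ : M ≃ₐ[LaurentSeries k] M, σ ∉ E.fixingSubgroup ∧
      phi (fun σ : M ≃ₐ[LaurentSeries k] M => s v σ) (s v σ) = conductor k E := by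
  have hsep : Algebra.IsSeparable (LaurentSeries k) E :=
    Algebra.isSeparable_tower_bot_of_isSeparable (LaurentSeries k) E M
  have hGal : IsGalois (LaurentSeries k) E := ⟨⟩
  obtain ⟨v', hv', hRam'⟩ := hRAM k E
  have hval : ∀ x : E, v (x : M) = Module.finrank E M • v' x := by
    intro x
    have h := hTOW k E M x
    rw [hv, hv']
    exact h
  have hPE : IsPGroup p (E ≃ₐ[LaurentSeries k] E) :=
    hPM.of_surjective (AlgEquiv.restrictNormalHom E)
      (AlgEquiv.restrictNormalHom_surjective (F := LaurentSeries k) (K₁ := E) M)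
  have hnt : Nontrivial (E ≃ₐ[LaurentSeries k] E) := by
    obtain ⟨σ, hσ⟩ := hex
    refine ⟨AlgEquiv.restrictNormalHom E σ, 1, ?_⟩
    intro h
    apply hσ
    rw [← IntermediateField.restrictNormalHom_ker]
    exact h
  have hc := hCOND p k E v' hv' hRam' hPE hnt
  rw [hc]
  exact hHBF p k (LaurentSeries k) M (κ0 k) v hRam hPM E v' hRam'.tv hval hex

theorem st_QUO (hRAM : ST_RAM.{u}) (hTOW : ST_TOW.{u}) (hHBF : ST_HBF.{u})
    (hCOND : ST_COND.{u}) : ST_QUO.{u} := by
  intro p hp k _ _ _ M _ _ _ _ v hv hRam hPM P _ ρ hρ C hle hex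
  have hfix : (IntermediateField.fixedField ρ.ker).fixingSubgroup = ρ.ker :=
    IntermediateField.fixingSubgroup_fixedField ρ.ker
  have hmem : ∀ σ, σ ∉ (IntermediateField.fixedField ρ.ker).fixingSubgroup ↔ ρ σ ≠ 1 := by
    intro σ
    rw [hfix, MonoidHom.mem_ker]
  have hnor : Normal (LaurentSeries k) (IntermediateField.fixedField ρ.ker) :=
    (IsGalois.of_fixedField_normal_subgroup ρ.ker).to_normal
  obtain ⟨h1, σ1, h2, h3⟩ := quo_main hRAM hTOW hHBF hCOND p k M v hv hRam hPM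
    (IntermediateField.fixedField ρ.ker) (by
      obtain ⟨σ, hσ, -⟩ := hex
      exact ⟨σ, (hmem σ).mpr hσ⟩)
  have hC : C = conductor k (IntermediateField.fixedField ρ.ker) := by
    apply le_antisymm
    · obtain ⟨σ, hσ, rfl⟩ := hex
      exact h1 σ ((hmem σ).mpr hσ)
    · rw [← h3]
      exact hle σ1 ((hmem σ1).mp h2)
  exact ⟨IntermediateField.fixedField ρ.ker, inferInstance, inferInstance, inferInstance,
    inferInstance, ⟨(IsGalois.normalAutEquivQuotient ρ.ker).symm.trans
      (QuotientGroup.quotientKerEquivOfSurjective ρ hρ)⟩, hC⟩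

end Pool.Agent.Helper21.DN
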