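import Mathlib
import Pool.Agent.Helper21.DN.Stmts
import Pool.Agent.Helper67.DN.QUO

/-!
Module CL of the crew project on MP_b6a655_nt: the ramification of a big field outside
`Gal(M/L)` is bounded in terms of `L`.
-/

set_option autoImplicit false

namespace Pool.Agent.Helper21.DN

universe u

theorem st_CL (hRAM : ST_RAM.{u}) (hTOW : ST_TOW.{u}) (hHBF : ST_HBF.{u})
    (hCOND : ST_COND.{u}) (hISO : ST_ISO.{u}) : ST_CL.{u} := by
  intro p hp k _ _ _ L _ _ _ _
  refine ⟨conductor k L, ?_⟩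
  intro M _ _ _ _ _ _ v hv hRam hPM σ hσ
  have e : L ≃ₐ[LaurentSeries k] (IsScalarTower.toAlgHom (LaurentSeries k) L M).fieldRange :=
    AlgEquiv.ofInjectiveField (IsScalarTower.toAlgHom (LaurentSeries k) L M)
  have hnor : Normal (LaurentSeries k)
      (IsScalarTower.toAlgHom (LaurentSeries k) L M).fieldRange := Normal.of_algEquiv e
  have hσ' : σ ∉ (IsScalarTower.toAlgHom (LaurentSeries k) L M).fieldRange.fixingSubgroup := by
    intro h
    obtain ⟨x, hx⟩ := hσ
    apply hx
    rw [IntermediateField.mem_fixingSubgroup_iff] at h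
    exact h _ ⟨x, rfl⟩
  have h := (quo_main hRAM hTOW hHBF hCOND p k M v hv hRam hPM
    (IsScalarTower.toAlgHom (LaurentSeries k) L M).fieldRange ⟨σ, hσ'⟩).1 σ hσ'
  rw [hISO k L _ e]
  exact h

end Pool.Agent.Helper21.DN
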