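import Mathlib
import Pool.Agent.Helper21.DN.Stmts

/-!
Module COS of the crew project on MP_b6a655_nt: cosets of a subgroup.
-/

set_option autoImplicit false

namespace Pool.Agent.Helper21.DN

universe u

theorem st_COS : ST_COS.{u} := by
  classical
  intro G _ _ s hs J g hg
  obtain ⟨g0, hg0, hmax⟩ := Finset.exists_max_image
    (Finset.univ.filter (fun x : G => g⁻¹ * x ∈ J)) s ⟨g, by simp [J.one_mem]⟩
  rw [Finset.mem_filter] at hg0
  have hg0J : g0 ∉ J := by
    intro h
    apply hg
    have h1 : g⁻¹ ∈ J := by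
      have := J.mul_mem hg0.2 (J.inv_mem h)
      simpa using this
    simpa using J.inv_mem h1
  have hle : ∀ h ∈ J, s (g0 * h) ≤ s g0 := by
    intro h hh
    apply hmax
    rw [Finset.mem_filter]
    refine ⟨Finset.mem_univ _, ?_⟩
    rw [← mul_assoc]
    exact J.mul_mem hg0.2 hh
  refine ⟨g0, hg0J, hg0.2, hle, ?_⟩
  intro h hh h1
  have hg1 : g0 ≠ 1 := by
    rintro rfl
    exact hg0J J.one_mem
  have hgh : g0 * h ≠ 1 := by
    intro e
    apply hg0J
    rw [eq_inv_of_mul_eq_one_left e]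
    exact J.inv_mem hh
  have e1 := hs.mul g0 h hg1 h1 hgh
  have e2 := hle h hh
  rcases le_total (s g0) (s h) with hc | hc
  · rw [min_eq_left hc] at e1 ⊢
    exact le_antisymm e2 e1
  · rw [min_eq_right hc] at e1 ⊢
    have e3 := hs.mul g0⁻¹ (g0 * h) (inv_ne_one.mpr hg1) hgh (by simpa using h1)
    rw [inv_mul_cancel_left, hs.inv, min_eq_right e2] at e3
    exact le_antisymm e3 e1

end Pool.Agent.Helper21.DN
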