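import Mathlib
import Pool.Agent.Helper21.DN.Stmts

/-!
Module EUL of the crew project on MP_b6a655_nt: Euler's trace formula.
-/

set_option autoImplicit false

namespace Pool.Agent.Helper21.DN

universe u

theorem eul_val {L : Type u} [Field L] (v : AddValuation L (WithTop ℤ)) {ι : Type u}
    [DecidableEq ι] (t : Finset ι) (f : ι → L) (c : ι → ℤ)
    (h : ∀ i ∈ t, v (f i) = ((c i : ℤ) : WithTop ℤ)) :
    v (∏ i ∈ t, f i) = ((∑ i ∈ t, c i : ℤ) : WithTop ℤ) := by
  induction t using Finset.induction_on with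
  | empty => simp
  | insert a t ha ih =>
    rw [Finset.prod_insert ha, Finset.sum_insert ha, v.map_mul, h a (Finset.mem_insert_self a t),
      ih (fun i hi => h i (Finset.mem_insert_of_mem hi))]
    norm_cast

theorem eul_pow {L : Type u} [Field L] (v : AddValuation L (WithTop ℤ)) (x : L)
    (hx : v x = ((1 : ℤ) : WithTop ℤ)) (n : ℕ) : v (x ^ n) = (((n : ℕ) : ℤ) : WithTop ℤ) := by
  induction n with
  | zero => simp
  | succ n ih =>
    rw [pow_succ, v.map_mul, ih, hx]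
    norm_cast

theorem st_EUL (hS1 : ST_S1.{u}) : ST_EUL.{u} := by
  classical
  intro p hp k K L _ _ _ _ _ _ _ κ v hv hPL
  obtain ⟨π, hπ⟩ := hv.tv.unif
  have hπ1 : v π = ((1 : ℤ) : WithTop ℤ) := by simpa using hπ
  have hit : ∀ (σ : L ≃ₐ[K] L) (n : ℕ) (x : L), (⇑σ)^[n] x = (σ ^ n) x := by
    intro σ n
    induction n with
    | zero => intro x; simp
    | succ n ih =>
      intro x
      rw [Function.iterate_succ_apply', ih, pow_succ']
      rfl
  have key : ∀ σ : L ≃ₐ[K] L, σ ≠ 1 → v (σ π - π) = ((1 + s v σ : ℤ) : WithTop ℤ) := by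
    intro σ hσ
    have hex : ∃ x, σ x ≠ x := by
      by_contra hcon
      push Not at hcon
      exact hσ (AlgEquiv.ext hcon)
    obtain ⟨N, hN⟩ := hPL σ
    have h := hS1 p k L ((algebraMap K L).comp κ) v hv.tv (σ : L →+* L)
      (fun c => σ.commutes (κ c)) (fun x => hv.inv σ x)
      ⟨N, fun x => by
        have h2 := hit σ (p ^ N) x
        rw [hN] at h2
        exact h2⟩ hex
    refine h.2.2 π 1 hπ1 ?_
    intro hdvd
    have h1 := Int.natCast_dvd_natCast.mp (by exact_mod_cast hdvd : ((p : ℕ) : ℤ) ∣ ((1 : ℕ) : ℤ))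
    exact hp.out.one_lt.ne' (Nat.dvd_one.mp h1)
  have hne : ∀ σ : L ≃ₐ[K] L, σ ≠ 1 → σ π - π ≠ 0 := by
    intro σ hσ h
    have h1 := key σ hσ
    rw [h, v.map_zero] at h1
    exact WithTop.top_ne_coe h1
  have hinj : Function.Injective (fun σ : L ≃ₐ[K] L => σ π) := by
    intro σ τ h
    by_contra hne'
    have h1 : τ⁻¹ * σ ≠ 1 := by
      intro h2
      exact hne' (inv_mul_eq_one.mp h2).symm
    apply hne _ h1
    have h3 : (τ⁻¹ * σ) π = π := by
      change τ⁻¹ (σ π) = π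
      have h4 : σ π = τ π := h
      rw [h4]
      exact τ.symm_apply_apply π
    rw [h3, sub_self]
  obtain ⟨n, hn⟩ : ∃ n : ℕ, n = Fintype.card (L ≃ₐ[K] L) := ⟨_, rfl⟩
  have hn1 : 1 ≤ n := by rw [hn]; exact Fintype.card_pos
  obtain ⟨D, hD⟩ : ∃ D : L, D = ∏ τ ∈ Finset.univ.erase (1 : L ≃ₐ[K] L), (π - τ π) := ⟨_, rfl⟩
  have hD0 : D ≠ 0 := by
    rw [hD, Finset.prod_ne_zero_iff]
    intro τ hτ
    rw [Finset.mem_erase] at hτ
    have := hne τ hτ.1
    intro h
    apply this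
    rw [← neg_sub, h, neg_zero]
  have hS : S1 (fun σ : L ≃ₐ[K] L => s v σ) =
      ∑ τ ∈ Finset.univ.erase (1 : L ≃ₐ[K] L), s v τ := by
    unfold S1
    apply Finset.sum_congr
    · ext x
      simp
    · intros; rfl
  have hvD : v D = (((n - 1 : ℕ) : ℤ) + ((S1 (fun σ : L ≃ₐ[K] L => s v σ) : ℕ) : ℤ) : ℤ) := by
    have h1 := eul_val v (Finset.univ.erase (1 : L ≃ₐ[K] L)) (fun τ => π - τ π)
      (fun τ => 1 + (s v τ : ℤ)) (by
        intro τ hτ
        rw [Finset.mem_erase] at hτ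
        rw [v.map_sub_swap]
        exact key τ hτ.1)
    rw [hD]
    refine h1.trans ?_
    congr 1
    rw [Finset.sum_add_distrib, Finset.sum_const, Finset.card_erase_of_mem (Finset.mem_univ _),
      Finset.card_univ, ← hn, hS]
    push_cast
    simp
  refine ⟨π ^ (n - 1) / D, ?_, ?_⟩
  · apply (algebraMap K L).injective
    rw [map_one, trace_eq_sum_automorphisms]
    have h1 : ∀ σ : L ≃ₐ[K] L, σ (π ^ (n - 1) / D) =
        (Polynomial.X ^ (n - 1) : Polynomial L).eval (σ π) /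
          ∏ τ ∈ Finset.univ.erase σ, (σ π - τ π) := by
      intro σ
      rw [map_div₀, map_pow, Polynomial.eval_pow, Polynomial.eval_X, hD, map_prod]
      congr 1
      refine Finset.prod_equiv (Equiv.mulLeft σ) ?_ ?_
      · intro τ
        simp
      · intro τ _
        rw [map_sub]
        rfl
    rw [Finset.sum_congr rfl (fun σ _ => h1 σ)]
    have h2 := Lagrange.coeff_eq_sum (s := (Finset.univ : Finset (L ≃ₐ[K] L)))
      (v := fun σ : L ≃ₐ[K] L => σ π) (P := (Polynomial.X ^ (n - 1) : Polynomial L))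
      (hinj.injOn) (by
        rw [Polynomial.degree_X_pow, Finset.card_univ, ← hn]
        exact_mod_cast (by omega : n - 1 < n))
    rw [← h2, Finset.card_univ, ← hn, Polynomial.coeff_X_pow, if_pos rfl]
  · have h1 : v (π ^ (n - 1) / D) + v D = v (π ^ (n - 1)) := by
      rw [← v.map_mul, div_mul_cancel₀ _ hD0]
    rw [eul_pow v π hπ1, hvD] at h1
    have h2 : v (π ^ (n - 1) / D) ≠ ⊤ := by
      intro h
      rw [h, WithTop.top_add] at h1
      exact WithTop.top_ne_coe h1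
    obtain ⟨m, hm⟩ := WithTop.ne_top_iff_exists.mp h2
    rw [← hm] at h1 ⊢
    have h3 : m + (((n - 1 : ℕ) : ℤ) + ((S1 (fun σ : L ≃ₐ[K] L => s v σ) : ℕ) : ℤ)) =
        ((n - 1 : ℕ) : ℤ) := by exact_mod_cast h1
    have h4 : m = -((S1 (fun σ : L ≃ₐ[K] L => s v σ) : ℕ) : ℤ) := by linarith
    rw [h4]

end Pool.Agent.Helper21.DN
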