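import Mathlib
import Pool.Agent.Helper21.DN.Stmts

/-!
Module FI3 of the crew project on MP_b6a655_nt: the twisted homomorphism is onto, and its
largest break.
-/

set_option autoImplicit false

namespace Pool.Agent.Helper21.DN

universe u

open scoped Classical in
theorem fi3_phi_one {G : Type u} [Group G] [Fintype G] (s : G → ℕ) (hs : RF s) :
    phi s ((1 : ℕ) : ℝ) = 1 := by
  unfold phi
  have hcard : (0 : ℝ) < (Fintype.card G : ℝ) := by
    exact_mod_cast Fintype.card_pos
  have e : ∑ g ∈ Finset.univ.filter (fun g : G => g ≠ 1), min (s g : ℝ) ((1 : ℕ) : ℝ) =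
      (Fintype.card G : ℝ) - 1 := by
    have e1 : ∑ g ∈ Finset.univ.filter (fun g : G => g ≠ 1), min (s g : ℝ) ((1 : ℕ) : ℝ) =
        ∑ g ∈ Finset.univ.filter (fun g : G => g ≠ 1), (1 : ℝ) := by
      apply Finset.sum_congr rfl
      intro g hg
      rw [Finset.mem_filter] at hg
      have h1 := hs.pos g hg.2
      have h2 : (1 : ℝ) ≤ (s g : ℝ) := by exact_mod_cast h1
      rw [Nat.cast_one]
      exact min_eq_right h2
    rw [e1, Finset.sum_const, nsmul_eq_mul, mul_one]
    have e2 : Finset.univ.filter (fun g : G => g ≠ 1) = Finset.univ.erase 1 := by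
      ext x
      simp
    rw [e2, Finset.card_erase_of_mem (Finset.mem_univ _), Finset.card_univ]
    have : 1 ≤ Fintype.card G := Fintype.card_pos
    push_cast [Nat.cast_sub this]
    ring
  rw [e, Nat.cast_one]
  have : (1 : ℝ) + ((Fintype.card G : ℝ) - 1) = (Fintype.card G : ℝ) := by ring
  rw [this]
  exact div_self hcard.ne'

theorem fi3_span (p : ℕ) [Fact p.Prime] (d : ℕ) (W : AddSubgroup (Fin d → ZMod p))
    (hW : ∀ ψ : Fin d → ZMod p, ψ ≠ 0 → ∃ w ∈ W, ∑ i, ψ i * w i ≠ 0) : W = ⊤ := by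
  have hW' : AddSubgroup.toZModSubmodule p W = ⊤ := by
    by_contra hne
    obtain ⟨f, hf0, hf⟩ := Submodule.exists_le_ker_of_lt_top _ (lt_top_iff_ne_top.mpr hne)
    have hfv : ∀ v : Fin d → ZMod p, f v = ∑ i, f (Pi.single i 1) * v i := by
      intro v
      conv_lhs => rw [← Finset.univ_sum_single v]
      rw [map_sum]
      apply Finset.sum_congr rfl
      intro i _
      have : (Pi.single i (v i) : Fin d → ZMod p) = v i • Pi.single i 1 := by
        rw [← Pi.single_smul, smul_eq_mul, mul_one]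
      rw [this, map_smul, smul_eq_mul, mul_comm]
    obtain ⟨w, hw, hne'⟩ := hW (fun i => f (Pi.single i 1)) (by
      intro h
      apply hf0
      apply LinearMap.ext
      intro v
      rw [hfv v]
      have : ∀ i, f (Pi.single i 1) = 0 := fun i => congrFun h i
      simp [this])
    apply hne'
    rw [← hfv w]
    exact hf hw
  ext x
  simp only [AddSubgroup.mem_top, iff_true]
  have : x ∈ AddSubgroup.toZModSubmodule p W := by
    rw [hW']
    trivial
  exact this

open scoped Classical in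
theorem st_FI3 : ST_FI3.{u} := by
  intro p hp k _ _ g d P _ β A e z ι hg hT G _ _ s hs ρ ρ' b hρ hρ' c0 n hn hc0 hbig hone hψ
  have hq : (0 : ℝ) < 1 / ((p ^ g : ℕ) : ℝ) := by
    have : 0 < p ^ g := pow_pos hp.out.pos g
    have : (0 : ℝ) < ((p ^ g : ℕ) : ℝ) := by exact_mod_cast this
    positivity
  -- additivity on the kernel
  have hadd : ∀ σ τ : G, ρ σ = 1 → ρ τ = 1 → b (σ * τ) = b σ + b τ := by
    intro σ τ h1 h2
    have e1 := hρ' (σ * τ)
    rw [map_mul, map_mul, h1, h2, hρ', hρ' τ, h1, h2, mul_one, mul_one, mul_one, mul_one,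
      ← map_mul] at e1
    have e2 := hT.inj e1
    rw [← ofAdd_add] at e2
    exact (Multiplicative.ofAdd.injective e2).symm
  have hb1 : b 1 = 0 := by
    have := hadd 1 1 (map_one ρ) (map_one ρ)
    rw [mul_one] at this
    exact left_eq_add.mp this
  have hinv : ∀ σ : G, ρ σ = 1 → b σ⁻¹ = - b σ := by
    intro σ h1
    have h2 : ρ σ⁻¹ = 1 := by rw [map_inv, h1, inv_one]
    have := hadd σ⁻¹ σ h2 h1
    rw [inv_mul_cancel, hb1] at this
    exact eq_neg_of_add_eq_zero_left this.symm
  obtain ⟨W, hWdef⟩ : ∃ W : AddSubgroup (Fin d → ZMod p), ∀ x, x ∈ W ↔ ∃ σ, ρ σ = 1 ∧ b σ = x :=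
    ⟨{ carrier := {x | ∃ σ, ρ σ = 1 ∧ b σ = x}
       zero_mem' := ⟨1, map_one ρ, hb1⟩
       add_mem' := by
        rintro x y ⟨σ, h1, rfl⟩ ⟨τ, h2, rfl⟩
        exact ⟨σ * τ, by rw [map_mul, h1, h2, mul_one], hadd σ τ h1 h2⟩
       neg_mem' := by
        rintro x ⟨σ, h1, rfl⟩
        exact ⟨σ⁻¹, by rw [map_inv, h1, inv_one], hinv σ h1⟩ }, fun x => Iff.rfl⟩
  have hker : ∀ σ, phi s (s σ) > c0 → ρ σ = 1 := by
    intro σ h
    by_contra hne
    exact absurd (hbig σ hne) (not_le.mpr h)
  have hWtop : W = ⊤ := by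
    apply fi3_span
    intro ψ hψ0
    obtain ⟨σ, h1, h2, h3⟩ := (hψ ψ hψ0).2
    refine ⟨b σ, (hWdef _).mpr ⟨σ, ?_, rfl⟩, h2⟩
    apply hker
    rw [h3]
    split_ifs
    · exact hc0
    · linarith
  have hall : ∀ u : Fin d → ZMod p, ∃ σ, ρ σ = 1 ∧ b σ = u := by
    intro u
    apply (hWdef u).mp
    rw [hWtop]
    trivial
  refine ⟨?_, ?_, ?_⟩
  · intro x
    obtain ⟨τ, hτ⟩ := hρ x
    obtain ⟨σ, hσ1, hσb⟩ := hall (- b τ)
    refine ⟨σ * τ, ?_⟩
    rw [map_mul, hρ' σ, hρ' τ, hσ1, hσb, hτ, mul_one, ← mul_assoc, ← map_mul, ← ofAdd_add,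
      neg_add_cancel, ofAdd_zero, map_one, one_mul]
  · intro σ hσ
    by_cases hι : ι (ρ σ) = 0
    · by_cases hb : b σ = 0
      · have h1 : ρ σ ≠ 1 := by
          intro h
          apply hσ
          rw [hρ', hb, h, ofAdd_zero, map_one, one_mul]
        have := hbig σ h1
        linarith
      · obtain ⟨i, hi⟩ : ∃ i, b σ i ≠ 0 := by
          by_contra hcon
          push Not at hcon
          exact hb (funext hcon)
        have h1 := (hψ (Pi.single i 1) (by
          intro h
          have := congrFun h i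
          simp at this)).1 σ hι (by
            simpa [Pi.single_apply] using hi)
        refine le_trans h1 ?_
        split_ifs
        · linarith
        · exact le_rfl
    · rw [hone σ hι, fi3_phi_one s hs]
      have : (1 : ℝ) ≤ (n : ℝ) := by exact_mod_cast hn
      linarith
  · obtain ⟨i, hi⟩ : ∃ i, z i ≠ 0 := by
      by_contra hcon
      push Not at hcon
      exact hT.z0 (funext hcon)
    obtain ⟨σ, h1, h2, h3⟩ := (hψ (Pi.single i 1) (by
      intro h
      have := congrFun h i
      simp at this)).2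
    have hz : ∑ j, (((Pi.single i 1 : Fin d → ZMod p) j).val : k) * z j ≠ 0 := by
      rw [Finset.sum_eq_single i]
      · have : (1 : ZMod p).val = 1 := ZMod.val_one p
        rw [Pi.single_eq_same, this, Nat.cast_one, one_mul]
        exact hi
      · intro j _ hj
        rw [Pi.single_eq_of_ne hj]
        simp
      · intro h
        exact absurd (Finset.mem_univ i) h
    rw [if_neg hz] at h3
    refine ⟨σ, ?_, h3⟩
    have hρ1 : ρ σ = 1 := by
      apply hker
      rw [h3]
      linarith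
    rw [hρ', hρ1, mul_one]
    intro h
    have h4 : Multiplicative.ofAdd (b σ) = 1 := by
      apply hT.inj
      rw [h, map_one]
    have h5 : b σ = 0 := by
      have := congrArg Multiplicative.toAdd h4
      simpa using this
    apply h2
    rw [h5]
    simp

end Pool.Agent.Helper21.DN
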