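import Mathlib
import Pool.Agent.Helper21.DN.Stmts

/-!
Module ISO of the crew project on MP_b6a655_nt: isomorphic extensions have the same conductor.
-/

set_option autoImplicit false

namespace Pool.Agent.Helper21.DN

universe u

theorem st_ISO : ST_ISO.{u} := by
  intro k _ E L _ _ _ _ e
  have hval : ∀ x : E, val k L (e x) = val k E x := by
    intro x
    unfold val
    rw [Algebra.norm_eq_of_algEquiv e x]
  have happ : ∀ (σ : E ≃ₐ[LaurentSeries k] E) (x : E), (e.autCongr σ) (e x) = e (σ x) := by
    intro σ x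
    simp [AlgEquiv.autCongr_apply]
  have hlow : ∀ (i : ℕ) (σ : E ≃ₐ[LaurentSeries k] E),
      σ ∈ lowerRam k E i ↔ e.autCongr σ ∈ lowerRam k L i := by
    intro i σ
    constructor
    · intro h y hy
      obtain ⟨x, rfl⟩ := e.surjective y
      rw [hval] at hy
      rw [happ, ← map_sub, hval]
      exact h x hy
    · intro h x hx
      have h1 := h (e x) (by rw [hval]; exact hx)
      rw [happ, ← map_sub, hval] at h1
      exact h1
  have hcard : ∀ i : ℕ, Nat.card (lowerRam k E i) = Nat.card (lowerRam k L i) := by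
    intro i
    exact Nat.card_congr (Equiv.subtypeEquiv e.autCongr.toEquiv (fun σ => hlow i σ))
  have hher : ∀ x : ℝ, herbrand k E x = herbrand k L x := by
    intro x
    unfold herbrand
    simp only [hcard]
  have hup : ∀ (v : ℝ) (σ : E ≃ₐ[LaurentSeries k] E),
      σ ∈ upperRam k E v ↔ e.autCongr σ ∈ upperRam k L v := by
    intro v σ
    unfold upperRam
    simp only [Set.mem_ofPred_eq, hher, hlow]
  unfold conductor
  congr 1
  ext v
  constructor
  · rintro ⟨σ, h1, h2⟩
    exact ⟨e.autCongr σ, (hup v σ).mp h1, fun h => h2 (e.autCongr.injective (by rw [h, map_one]))⟩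
  · rintro ⟨τ, h1, h2⟩
    obtain ⟨σ, rfl⟩ := e.autCongr.surjective τ
    exact ⟨σ, (hup v σ).mpr h1, fun h => h2 (by rw [h, map_one])⟩

end Pool.Agent.Helper21.DN
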