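import Mathlib
import Pool.Agent.Helper21.DN.Stmts

/-!
Module MAIN of the crew project on MP_b6a655_nt: the main theorem.
-/

set_option autoImplicit false

namespace Pool.Agent.Helper21.DN

universe u

theorem main_almost (hUB : ST_UB.{u}) (p : ℕ) [Fact p.Prime] (k : Type u) [Field k] [CharP k p]
    [IsAlgClosed k] (P : Type) [Group P] [Finite P] (hP : IsPGroup p P) (hnt : Nontrivial P) :
    AlmostAll k P (MP p P) := by
  obtain ⟨h0, h1⟩ := hUB p k P hP hnt
  refine ⟨h0, ?_⟩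
  have : {c | c ∈ condSet k P ∧ ¬ ∃ z : ℤ, ((MP p P : ℕ) : ℝ) * c = (z : ℝ)} = ∅ := by
    ext c
    simp only [Set.mem_ofPred_eq, Set.mem_empty_iff_false, iff_false, not_and, not_not]
    intro hc
    obtain ⟨z, -, -, -, h2⟩ := h1 c hc
    exact h2
  rw [this]
  exact Set.finite_empty

theorem main_low (hUB : ST_UB.{u}) (hNPL : ST_NPL.{u}) (hFINT : ST_FINT.{u}) (p : ℕ)
    [hp : Fact p.Prime] (hp2 : p ≠ 2) (k : Type u) [Field k] [CharP k p] [IsAlgClosed k] (P : Type)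
    [Group P] [Finite P] (hP : IsPGroup p P) (hnt : Nontrivial P) (g d : ℕ) (hg : 1 ≤ g)
    (β : Multiplicative (Fin d → ZMod p) →* P)
    (A : P → Matrix (Fin d) (Fin d) (ZMod p)) (e z : Fin d → k) (ι : P → k)
    (hT : TwD p g d k P β A e z ι) : p ^ g ∣ NP k P := by
  obtain ⟨n0, hn0⟩ := hFINT p hp2 k g d hg P hP β A e z ι hT
  apply hNPL k P (p ^ g) (pow_pos hp.out.pos g) ⟨_, main_almost hUB p k P hP hnt⟩
  intro n1
  have hp1 := hp.out.one_lt
  refine ⟨p * (n0 + n1) + 1, ?_, ?_⟩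
  · nlinarith
  · apply hn0
    · nlinarith
    · intro h
      have h2 : p ∣ 1 := (Nat.dvd_add_right (Dvd.intro _ rfl)).mp h
      have := Nat.le_of_dvd one_pos h2
      omega
    · intro h
      have h2 : p ∣ 2 := (Nat.dvd_add_right (Dvd.intro _ rfl)).mp h
      have := Nat.le_of_dvd two_pos h2
      omega

theorem main_heis_finite (F : Type) [Field F] [Finite F] : Finite (Heis F) := by
  refine Finite.of_injective (fun x : Heis F => (x.a, x.b, x.c)) ?_
  intro x y h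
  simp only [Prod.mk.injEq] at h
  exact Heis.ext h.1 h.2.1 h.2.2

theorem st_MAIN (hUB : ST_UB.{u}) (hNPU : ST_NPU.{u}) (hNPL : ST_NPL.{u})
    (hFINT : ST_FINT.{u}) (hRK1 : ST_RK1.{u}) (hHEI : ST_HEI.{u}) (hEXS : ST_EXS) :
    ST_MAIN.{u} := by
  intro p hp k _ _ _
  have hup : ∀ (P : Type) [Group P] [Finite P], IsPGroup p P → Nontrivial P →
      0 < NP k P ∧ NP k P ∣ MP p P := by
    intro P _ _ hP hnt
    obtain ⟨h0, h1⟩ := hUB p k P hP hnt
    apply hNPU k P _ h0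
    intro c hc
    obtain ⟨z, -, -, -, h2⟩ := h1 c hc
    exact h2
  have hlow : p ≠ 2 → ∀ (P : Type) [Group P] [Finite P], IsPGroup p P → ∀ B : Subgroup P,
      (∀ a ∈ B, ∀ b ∈ B, a * b = b * a) → (∀ a ∈ B, a ^ p = 1) →
      Nat.card (⁅B, (⊤ : Subgroup P)⁆ : Subgroup P) = p →
      (Subgroup.center P).relIndex B ∣ NP k P := by
    intro hp2 P _ _ hP B hB1 hB2 hB3
    have hnt : Nontrivial P := by
      by_contra hcon
      rw [not_nontrivial_iff_subsingleton] at hcon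
      have h1 : Nat.card (⁅B, (⊤ : Subgroup P)⁆ : Subgroup P) ≤ 1 :=
        Finite.card_le_one_iff_subsingleton.mpr inferInstance
      have := hp.out.one_lt
      omega
    obtain ⟨g, d, β, A, e, z, ι, hg, hidx, hT⟩ := hRK1 p k P hP B hB1 hB2 hB3
    rw [hidx]
    exact main_low hUB hNPL hFINT p hp2 k P hP hnt g d hg β A e z ι hT
  refine ⟨?_, hlow, ?_, ?_⟩
  · intro P _ _ hP hnt
    obtain ⟨h0, h1⟩ := hup P hP hnt
    refine ⟨h0, h1, ?_⟩
    intro c hc
    obtain ⟨z, h2, h3, h4, -⟩ := (hUB p k P hP hnt).2 c hc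
    exact ⟨z, h2, h3, h4⟩
  · intro hp2 P _ _ g hg h1 h2 h3 h4
    have hP : IsPGroup p P := IsPGroup.of_card h1
    have hnt : Nontrivial P := by
      rw [← Finite.one_lt_card_iff_nontrivial, h1]
      exact Nat.one_lt_pow (by omega) hp.out.one_lt
    obtain ⟨h5, B, hB1, hB2, hB3, hB4⟩ := hEXS p hp2 P g hg h1 h2 h3 h4
    apply Nat.dvd_antisymm
    · exact (hup P hP hnt).2.trans h5
    · rw [← hB4]
      exact hlow hp2 P hP B hB1 hB2 hB3
  · intro hp2 F _ _ _
    obtain ⟨hP, hnt, h1, g, d, β, A, e, z, ι, hg, hcard, hT⟩ := hHEI p k F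
    have hfin : Finite (Heis F) := main_heis_finite F
    apply Nat.dvd_antisymm
    · exact (hup (Heis F) hP hnt).2.trans h1
    · rw [hcard]
      exact main_low hUB hNPL hFINT p hp2 k (Heis F) hP hnt g d hg β A e z ι hT

end Pool.Agent.Helper21.DN
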