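import Mathlib
import Pool.Agent.Helper21.DN.Stmts

/-!
Module NPL of the crew project on MP_b6a655_nt: lower bound for `N_P`.
-/

set_option autoImplicit false

namespace Pool.Agent.Helper21.DN

universe u

theorem st_NPL : ST_NPL.{u} := by
  intro k _ P _ q hq hM hinf
  have hmem : AlmostAll k P (NP k P) := Nat.sInf_mem (s := {N | AlmostAll k P N}) hM
  obtain ⟨B, hB⟩ := hmem.2.bddAbove
  obtain ⟨n0, hn0⟩ := exists_nat_gt B
  obtain ⟨n, hn, hc⟩ := hinf n0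
  have hq0 : (0 : ℝ) < (q : ℝ) := by exact_mod_cast hq
  have hpos : (0 : ℝ) < 1 / (q : ℝ) := by positivity
  have hnn : (n0 : ℝ) ≤ (n : ℝ) := by exact_mod_cast hn
  have hex : ∃ z : ℤ, ((NP k P : ℕ) : ℝ) * ((n : ℝ) + 1 / (q : ℝ)) = (z : ℝ) := by
    by_contra hcon
    have h1 := hB ⟨hc, hcon⟩
    linarith
  obtain ⟨z, hz⟩ := hex
  have h1 : ((NP k P : ℕ) : ℝ) = (q : ℝ) * ((z : ℝ) - ((NP k P : ℕ) : ℝ) * (n : ℝ)) := by
    rw [← hz]
    field_simp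
    ring
  have h2 : ((NP k P : ℕ) : ℤ) = (q : ℤ) * (z - ((NP k P : ℕ) : ℤ) * (n : ℤ)) := by
    exact_mod_cast h1
  exact Int.natCast_dvd_natCast.mp ⟨_, h2⟩

end Pool.Agent.Helper21.DN
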