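import Mathlib
import Pool.Agent.Helper21.DN.Stmts

/-!
Module NPU of the crew project on MP_b6a655_nt: `N_P` divides `M` if all conductors lie in
`(1/M) ℤ`.
-/

set_option autoImplicit false

namespace Pool.Agent.Helper21.DN

universe u

theorem st_NPU : ST_NPU.{u} := by
  intro k _ P _ M hM hall
  have hAM : AlmostAll k P M := by
    refine ⟨hM, ?_⟩
    have : {c | c ∈ condSet k P ∧ ¬ ∃ z : ℤ, (M : ℝ) * c = (z : ℝ)} = ∅ := by
      ext c
      simp only [Set.mem_ofPred_eq, Set.mem_empty_iff_false, iff_false, not_and, not_not]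
      exact hall c
    rw [this]
    exact Set.finite_empty
  have hmem : AlmostAll k P (NP k P) := Nat.sInf_mem (s := {N | AlmostAll k P N}) ⟨M, hAM⟩
  refine ⟨hmem.1, ?_⟩
  have hg : AlmostAll k P (Nat.gcd (NP k P) M) := by
    refine ⟨Nat.gcd_pos_of_pos_left _ hmem.1, ?_⟩
    refine hmem.2.subset ?_
    rintro c ⟨hc, hne⟩
    refine ⟨hc, ?_⟩
    rintro ⟨z, hz⟩
    apply hne
    obtain ⟨w, hw⟩ := hall c hc
    refine ⟨z * Nat.gcdA (NP k P) M + w * Nat.gcdB (NP k P) M, ?_⟩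
    have h1 := Nat.gcd_eq_gcd_ab (NP k P) M
    have h2 : ((Nat.gcd (NP k P) M : ℕ) : ℝ) = ((NP k P : ℕ) : ℝ) * (Nat.gcdA (NP k P) M : ℝ) +
        (M : ℝ) * (Nat.gcdB (NP k P) M : ℝ) := by exact_mod_cast h1
    rw [h2]
    push_cast
    linear_combination (Nat.gcdA (NP k P) M : ℝ) * hz + (Nat.gcdB (NP k P) M : ℝ) * hw
  have hle : NP k P ≤ Nat.gcd (NP k P) M := Nat.sInf_le (s := {N | AlmostAll k P N}) hg
  have hdvd : Nat.gcd (NP k P) M ∣ NP k P := Nat.gcd_dvd_left _ _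
  have heq : Nat.gcd (NP k P) M = NP k P := le_antisymm (Nat.le_of_dvd hmem.1 hdvd) hle
  rw [← heq]
  exact Nat.gcd_dvd_right _ _

end Pool.Agent.Helper21.DN
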