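import Mathlib
import Pool.Agent.Helper21.DN.Stmts

/-!
Module OUT of the crew project on MP_b6a655_nt: divisibility of the sum outside a subgroup.
-/

set_option autoImplicit false

namespace Pool.Agent.Helper21.DN

universe u

section

variable {G : Type u} [Group G] [Fintype G]

open scoped Classical in
/-- the sum over a subset which is a union of left cosets -/
theorem out_cosets (J : Subgroup G) (s : G → ℕ) (D : Finset G)
    (hD : ∀ h ∈ D, ∀ j ∈ J, h * j ∈ D) (hdiv : ∀ h ∈ D, Nat.card J ∣ cs s J h) :
    Nat.card J ∣ ∑ h ∈ D, s h := by
  classical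
  -- group by left cosets
  have e : ∑ h ∈ D, s h = ∑ c ∈ D.image (fun h : G => (QuotientGroup.mk h : G ⧸ J)),
      ∑ h ∈ D.filter (fun h : G => (QuotientGroup.mk h : G ⧸ J) = c), s h := by
    rw [Finset.sum_fiberwise_of_maps_to]
    intro h hh
    exact Finset.mem_image_of_mem _ hh
  rw [e]
  apply Finset.dvd_sum
  intro c hc
  obtain ⟨h, hh, rfl⟩ := Finset.mem_image.mp hc
  have e2 : ∑ x ∈ D.filter (fun x : G => (QuotientGroup.mk x : G ⧸ J) = QuotientGroup.mk h), s x =
      cs s J h := by
    unfold cs
    symm
    refine Finset.sum_nbij (fun j => h * j) ?_ ?_ ?_ ?_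
    · intro j hj
      rw [Finset.mem_filter] at hj
      rw [Finset.mem_filter]
      refine ⟨hD h hh j hj.2, ?_⟩
      rw [eq_comm, QuotientGroup.eq]
      simpa using hj.2
    · intro a _ b _ hab
      exact mul_left_cancel hab
    · intro x hx
      rw [Finset.mem_coe, Finset.mem_filter] at hx
      refine ⟨h⁻¹ * x, ?_, by simp⟩
      rw [Finset.mem_coe, Finset.mem_filter]
      refine ⟨Finset.mem_univ _, ?_⟩
      rw [← QuotientGroup.eq]
      exact hx.2.symm
    · intro j _
      rfl
  rw [e2]
  exact hdiv h hh

end

theorem st_OUT : ST_OUT.{u} := by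
  classical
  intro p hp G _ _ s hPG hG H
  -- induction on the index
  have key : ∀ n : ℕ, ∀ H : Subgroup G, H.index = n →
      Nat.card H ∣ ∑ g ∈ (Set.toFinite {g : G | g ∉ H}).toFinset, s g := by
    intro n
    induction n using Nat.strong_induction_on with
    | _ n ih =>
      intro H hn
      by_cases hT : H = ⊤
      · subst hT
        have : (Set.toFinite {g : G | g ∉ (⊤ : Subgroup G)}).toFinset = ∅ := by
          apply Finset.eq_empty_of_forall_notMem
          intro x hx
          rw [Set.Finite.mem_toFinset] at hx
          exact hx (Subgroup.mem_top x)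
        rw [this]
        simp
      · -- H is properly contained in its normalizer
        have hnil : Group.IsNilpotent G := hPG.isNilpotent
        have hlt : H < Subgroup.normalizer (H : Set G) := by
          exact Group.normalizerCondition_of_isNilpotent H (lt_top_iff_ne_top.mpr hT)
        obtain ⟨H', hH', hN'⟩ : ∃ H' : Subgroup G, H < H' ∧ (H.subgroupOf H').Normal := by
          refine ⟨_, hlt, ?_⟩
          exact Subgroup.normal_in_normalizer
        have hidx : H'.index < n := by
          rw [← hn]
          exact Subgroup.index_strictAnti hH'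
        have h1 := ih _ hidx H' rfl
        have h2 : Nat.card H ∣ ∑ h ∈ Finset.univ.filter (fun h => h ∈ H' ∧ h ∉ H), s h := by
          apply out_cosets H s
          · intro h hh j hj
            rw [Finset.mem_filter] at hh ⊢
            refine ⟨Finset.mem_univ _, H'.mul_mem hh.2.1 (hH'.le hj), ?_⟩
            rw [H.mul_mem_cancel_right hj]
            exact hh.2.2
          · intro h hh
            rw [Finset.mem_filter] at hh
            exact hG.int H' H hH'.le hN' h hh.2.1 hh.2.2
        have e : ∑ g ∈ (Set.toFinite {g : G | g ∉ H}).toFinset, s g =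
            ∑ h ∈ Finset.univ.filter (fun h => h ∈ H' ∧ h ∉ H), s h +
            ∑ g ∈ (Set.toFinite {g : G | g ∉ H'}).toFinset, s g := by
          have e1 : ∀ K : Subgroup G, (Set.toFinite {g : G | g ∉ K}).toFinset =
              Finset.univ.filter (fun g => g ∉ K) := by
            intro K
            ext x
            simp
          rw [e1, e1, Finset.sum_filter, Finset.sum_filter, Finset.sum_filter,
            ← Finset.sum_add_distrib]
          apply Finset.sum_congr rfl
          intro h _
          by_cases hH : h ∈ H
          · have : h ∈ H' := hH'.le hH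
            simp [hH, this]
          · by_cases hh' : h ∈ H'
            · simp [hH, hh']
            · simp [hH, hh']
        rw [e]
        exact dvd_add h2 ((Subgroup.card_dvd_of_le hH'.le).trans h1)
  exact key _ H rfl

end Pool.Agent.Helper21.DN
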