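import Mathlib
import Pool.Agent.Helper21.DN.Stmts

/-!
Module PHM of the crew project on MP_b6a655_nt: `phi` is strictly increasing.
-/

set_option autoImplicit false

namespace Pool.Agent.Helper21.DN

universe u

theorem st_PHM : ST_PHM.{u} := by
  classical
  intro G _ _ s a b _ hab
  unfold phi
  have hcard : (0 : ℝ) < (Fintype.card G : ℝ) := by
    exact_mod_cast Fintype.card_pos
  apply div_lt_div_of_pos_right _ hcard
  apply add_lt_add_of_lt_of_le hab
  apply Finset.sum_le_sum
  intro g _
  exact min_le_min le_rfl hab.le

end Pool.Agent.Helper21.DN
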