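import Mathlib
import Pool.Agent.Helper21.DN.Stmts

/-!
Module PREP of the crew project on MP_b6a655_nt: the big field with its elements `w`, `y_i`.
-/

set_option autoImplicit false

namespace Pool.Agent.Helper21.DN

universe u

theorem prep_char (p : ℕ) (k : Type u) [Field k] [CharP k p] : CharP (LaurentSeries k) p :=
  charP_of_injective_ringHom (f := κ0 k) (κ0 k).injective p

/-- the action on the right hand sides -/
theorem prep_act (p g d : ℕ) [Fact p.Prime] (k : Type u) [Field k] (P : Type)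
    [Group P] (β : Multiplicative (Fin d → ZMod p) →* P)
    (A : P → Matrix (Fin d) (Fin d) (ZMod p)) (e z : Fin d → k) (ι : P → k)
    (hT : TwD p g d k P β A e z ι) (L : Type u) [Field L] (κ : k →+* L) (σ : L →+* L)
    (hσκ : ∀ c, σ (κ c) = κ c) (T w c : L) (hT' : σ T = T) (hc : σ c = c) (x : P)
    (hw : σ w = w + κ (ι x)) (n : ℕ) (i : Fin d) :
    σ (T ^ n * κ (e i) - (T ^ n * w + T ^ (n + 1) * c) * κ (z i)) =
      ∑ j, ((A x⁻¹ i j).val : L) *
        (T ^ n * κ (e j) - (T ^ n * w + T ^ (n + 1) * c) * κ (z j)) := by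
  have hι1 : ι 1 = 0 := by
    have := hT.add 1 1
    rw [mul_one] at this
    exact left_eq_add.mp this
  have hιi : ι x⁻¹ = - ι x := by
    have := hT.add x⁻¹ x
    rw [inv_mul_cancel, hι1] at this
    exact eq_neg_of_add_eq_zero_left this.symm
  have e1 : ∑ j, ((A x⁻¹ i j).val : L) * κ (e j) = κ (e i) - κ (ι x) * κ (z i) := by
    have h := congrArg κ (hT.ez x⁻¹ i)
    rw [map_sum, hιi, map_add, map_mul, map_neg] at h
    have h2 : ∀ j, κ (((A x⁻¹ i j).val : k) * e j) = ((A x⁻¹ i j).val : L) * κ (e j) := by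
      intro j
      rw [map_mul, map_natCast]
    simp only [h2] at h
    rw [h]
    ring
  have e2 : ∑ j, ((A x⁻¹ i j).val : L) * κ (z j) = κ (z i) := by
    have h := congrArg κ (hT.zz x⁻¹ i)
    rw [map_sum] at h
    have h2 : ∀ j, κ (((A x⁻¹ i j).val : k) * z j) = ((A x⁻¹ i j).val : L) * κ (z j) := by
      intro j
      rw [map_mul, map_natCast]
    simp only [h2] at h
    exact h
  have e3 : ∑ j, ((A x⁻¹ i j).val : L) *
      (T ^ n * κ (e j) - (T ^ n * w + T ^ (n + 1) * c) * κ (z j)) =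
      T ^ n * ∑ j, ((A x⁻¹ i j).val : L) * κ (e j) -
        (T ^ n * w + T ^ (n + 1) * c) * ∑ j, ((A x⁻¹ i j).val : L) * κ (z j) := by
    rw [Finset.mul_sum, Finset.mul_sum, ← Finset.sum_sub_distrib]
    apply Finset.sum_congr rfl
    intro j _
    ring
  rw [e3, e1, e2]
  simp only [map_sub, map_mul, map_add, map_pow, hT', hw, hc, hσκ]
  ring

theorem st_PREP (hRAM : ST_RAM.{u}) (hL2 : ST_L2.{u}) (hTWM : ST_TWM.{u}) (hCL : ST_CL.{u}) :
    ST_PREP.{u} := by
  intro p hp k _ _ _ g d hg P _ _ hP β A e z ι hT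
  obtain ⟨L, _, _, w0, _, _, i0, hw0, hσ0⟩ := hL2 p k g hg P hP ι hT.add hT.fq hT.surj
  obtain ⟨c0, hc0⟩ := hCL p k L
  refine ⟨c0, ?_⟩
  intro n hn
  have : CharP (LaurentSeries k) p := prep_char p k
  obtain ⟨κ, hκ⟩ : ∃ κ : k →+* L, ∀ c, κ c = algebraMap (LaurentSeries k) L (κ0 k c) :=
    ⟨(algebraMap (LaurentSeries k) L).comp (κ0 k), fun c => rfl⟩
  obtain ⟨T, hTdef⟩ : ∃ T : L, T = w0 ^ p ^ g - w0 := ⟨_, rfl⟩
  obtain ⟨x, hx⟩ : ∃ x : Fin d → L, ∀ i, x i = T ^ n * κ (e i) -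
      (T ^ n * w0 + T ^ (n + 1) * κ (((n : k) + 1)⁻¹)) * κ (z i) := ⟨_, fun i => rfl⟩
  have hPL : IsPGroup p (L ≃ₐ[LaurentSeries k] L) := hP.of_equiv i0.symm
  obtain ⟨M, _, _, _, _, _, _, y, hPM, hy⟩ := hTWM p (LaurentSeries k) L hPL d x (by
    intro σ
    refine ⟨A (i0 σ)⁻¹, ?_⟩
    intro i
    have hσT : σ T = T := by
      rw [hTdef, hw0]
      exact σ.commutes _
    have h := prep_act p g d k P β A e z ι hT L κ (σ : L →+* L)
      (by intro c; rw [hκ]; exact σ.commutes _) T w0 (κ (((n : k) + 1)⁻¹)) hσT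
      (by rw [hκ]; exact σ.commutes _) (i0 σ) (by rw [hκ]; exact hσ0 σ) n i
    simp only [hx]
    exact h)
  obtain ⟨v, hv, hRam⟩ := hRAM k M
  obtain ⟨ρ, hρ⟩ : ∃ ρ : (M ≃ₐ[LaurentSeries k] M) →* P,
      ∀ σ, ρ σ = i0 (AlgEquiv.restrictNormalHom L σ) :=
    ⟨(i0 : (L ≃ₐ[LaurentSeries k] L) →* P).comp (AlgEquiv.restrictNormalHom L), fun σ => rfl⟩
  have hres : ∀ (σ : M ≃ₐ[LaurentSeries k] M) (a : L),
      algebraMap L M (AlgEquiv.restrictNormalHom L σ a) = σ (algebraMap L M a) := by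
    intro σ a
    exact AlgEquiv.restrictNormal_commutes σ L a
  have hmap : ∀ a : LaurentSeries k, algebraMap L M (algebraMap (LaurentSeries k) L a) =
      algebraMap (LaurentSeries k) M a := by
    intro a
    exact (IsScalarTower.algebraMap_apply (LaurentSeries k) L M a).symm
  refine ⟨M, inferInstance, inferInstance, inferInstance, inferInstance, v,
    algebraMap L M w0, y, ρ, hv, hRam, hPM, ?_, ?_, ?_, ?_, ?_⟩
  · intro q
    obtain ⟨σ, hσ⟩ := AlgEquiv.restrictNormalHom_surjective (F := LaurentSeries k) (K₁ := L) M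
      (i0.symm q)
    refine ⟨σ, ?_⟩
    rw [hρ, hσ, MulEquiv.apply_symm_apply]
  · rw [← map_pow, ← map_sub, hw0, hmap]
  · intro σ
    rw [← hres, hσ0, map_add, hmap, hρ]
  · intro i
    rw [hy, hx, hTdef]
    simp only [map_sub, map_mul, map_add, map_pow, hκ, hmap]
  · intro σ hσ
    apply hc0 M v hv hRam hPM σ
    by_contra hcon
    push Not at hcon
    apply hσ
    rw [hρ]
    have : AlgEquiv.restrictNormalHom L σ = 1 := by
      apply AlgEquiv.ext
      intro a
      apply (algebraMap L M).injective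
      rw [hres, hcon]
      rfl
    rw [this, map_one]

end Pool.Agent.Helper21.DN
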