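import Mathlib
import Pool.Agent.Helper21.DN.Stmts

/-!
Module RFV of the crew project on MP_b6a655_nt: `s` is a ramification function.
-/

set_option autoImplicit false

namespace Pool.Agent.Helper21.DN

universe u

theorem rfv_bdd {L : Type u} [Field L] (v : AddValuation L (WithTop ℤ)) (f : L → L) (x : L)
    (hx : f x ≠ x) (h0 : f 0 = 0) :
    BddAbove {i : ℕ | ∀ x : L, v x + ((i : ℤ) : WithTop ℤ) ≤ v (f x - x)} := by
  have hx0 : x ≠ 0 := by
    rintro rfl
    exact hx h0
  have h1 : v x ≠ ⊤ := fun h => hx0 (v.top_iff.mp h)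
  have h2 : v (f x - x) ≠ ⊤ := fun h => hx (sub_eq_zero.mp (v.top_iff.mp h))
  obtain ⟨a, ha⟩ := WithTop.ne_top_iff_exists.mp h1
  obtain ⟨m, hm⟩ := WithTop.ne_top_iff_exists.mp h2
  refine ⟨(m - a).toNat, ?_⟩
  intro i hi
  have h := hi x
  rw [← ha, ← hm] at h
  have h3 : a + (i : ℤ) ≤ m := by exact_mod_cast h
  omega

theorem rfv_le {L : Type u} [Field L] (v : AddValuation L (WithTop ℤ)) (f : L → L) (x : L)
    (hx : f x ≠ x) (h0 : f 0 = 0) (i : ℕ)
    (hi : ∀ x : L, v x + ((i : ℤ) : WithTop ℤ) ≤ v (f x - x)) : i ≤ s v f :=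
  le_csSup (rfv_bdd v f x hx h0) hi

theorem rfv_s1 (hS1 : ST_S1.{u}) (p : ℕ) [Fact p.Prime] (k K L : Type u) [Field k] [CharP k p]
    [Field K] [Field L] [Algebra K L] [FiniteDimensional K L] [IsGalois K L] (κ : k →+* K)
    (v : AddValuation L (WithTop ℤ)) (hv : Ram κ v) (hp : IsPGroup p (L ≃ₐ[K] L))
    (σ : L ≃ₐ[K] L) (hσ : σ ≠ 1) :
    1 ≤ s v σ ∧ ∀ x, v x + ((s v σ : ℤ) : WithTop ℤ) ≤ v (σ x - x) := by
  obtain ⟨N, hN⟩ := hp σ
  have hit : ∀ (n : ℕ) (x : L), (⇑σ)^[n] x = (σ ^ n) x := by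
    intro n
    induction n with
    | zero => intro x; simp
    | succ n ih =>
      intro x
      rw [Function.iterate_succ_apply', ih, pow_succ']
      rfl
  have hex : ∃ x, σ x ≠ x := by
    by_contra hcon
    push Not at hcon
    exact hσ (AlgEquiv.ext hcon)
  have h := hS1 p k L ((algebraMap K L).comp κ) v hv.tv (σ : L →+* L) ?_ ?_ ?_ ?_
  · exact ⟨h.1, h.2.1⟩
  · intro c
    exact σ.commutes (κ c)
  · intro x
    exact hv.inv σ x
  · refine ⟨N, fun x => ?_⟩
    have h2 := hit (p ^ N) x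
    rw [hN] at h2
    exact h2
  · exact hex

theorem st_RFV (hS1 : ST_S1.{u}) : ST_RFV.{u} := by
  intro p _ k K L _ _ _ _ _ _ _ κ v hv hp
  have key := rfv_s1 hS1 p k K L κ v hv hp
  have hex : ∀ σ : L ≃ₐ[K] L, σ ≠ 1 → ∃ x, σ x ≠ x := by
    intro σ hσ
    by_contra hcon
    push Not at hcon
    exact hσ (AlgEquiv.ext hcon)
  refine ⟨fun g hg => (key g hg).1, ?_, ?_, ?_⟩
  · intro g h hg hh hgh
    obtain ⟨x0, hx0⟩ := hex (g * h) hgh
    change min (s v g) (s v h) ≤ s v (⇑(g * h))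
    refine rfv_le v _ x0 hx0 (map_zero (g * h)) _ ?_
    intro x
    have e : (g * h) x - x = g (h x - x) + (g x - x) := by
      rw [map_sub, AlgEquiv.mul_apply]
      ring
    rw [e]
    have h1 := (key g hg).2 x
    have h2 := (key h hh).2 x
    refine le_trans ?_ (v.map_add _ _)
    rw [hv.inv g]
    refine le_min (le_trans ?_ h2) (le_trans ?_ h1)
    · have h3 : min (s v g) (s v h) ≤ s v h := min_le_right _ _
      exact add_le_add le_rfl (by exact_mod_cast h3)
    · have h3 : min (s v g) (s v h) ≤ s v g := min_le_left _ _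
      exact add_le_add le_rfl (by exact_mod_cast h3)
  · intro g
    change s v (⇑g⁻¹) = s v g
    unfold s
    congr 1
    ext i
    constructor
    · intro h x
      have h1 := h (g x)
      rw [hv.inv] at h1
      have e : g⁻¹ (g x) = x := g.symm_apply_apply x
      rw [e, v.map_sub_swap] at h1
      exact h1
    · intro h x
      have h1 := h (g⁻¹ x)
      rw [hv.inv] at h1
      have e : g (g⁻¹ x) = x := g.apply_symm_apply x
      rw [e, v.map_sub_swap] at h1
      exact h1
  · intro g h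
    change s v (⇑(h * g * h⁻¹)) = s v g
    unfold s
    congr 1
    ext i
    have e : ∀ x, (h * g * h⁻¹) (h x) - h x = h (g x - x) := by
      intro x
      rw [map_sub]
      have e2 : h⁻¹ (h x) = x := h.symm_apply_apply x
      change h (g (h⁻¹ (h x))) - h x = _
      rw [e2]
    constructor
    · intro hi x
      have h1 := hi (h x)
      rw [e, hv.inv, hv.inv] at h1
      exact h1
    · intro hi x
      have h1 := hi (h⁻¹ x)
      have e3 : h (h⁻¹ x) = x := h.apply_symm_apply x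
      have e4 := e (h⁻¹ x)
      rw [e3] at e4
      rw [e4, hv.inv]
      rw [hv.inv] at h1
      exact h1

end Pool.Agent.Helper21.DN
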