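import Mathlib
import Pool.Agent.Helper21.DN.Stmts

/-!
Module UBG of the crew project on MP_b6a655_nt: the upper bound, group-theoretic form.
-/

set_option autoImplicit false

namespace Pool.Agent.Helper21.DN

universe u

section

variable {G : Type u} [Group G] [Fintype G]

theorem ubg_le (s : G → ℕ) (g : G) (hg : g ≠ 1) : s g ≤ x0 s := by
  classical
  unfold x0
  exact Finset.le_sup (f := s) (by simp [hg])

open scoped Classical in
theorem ubg_split (J : Subgroup G) (f : G → ℕ) :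
    ∑ j ∈ Finset.univ.filter (fun j => j ∈ J), f j =
      f 1 + ∑ j ∈ Finset.univ.filter (fun j => j ∈ J ∧ j ≠ 1), f j := by
  have h1 : (1 : G) ∈ Finset.univ.filter (fun j => j ∈ J) := by simp [J.one_mem]
  rw [← Finset.add_sum_erase _ _ h1]
  congr 1
  apply Finset.sum_congr
  · ext x
    simp [and_comm]
  · intros; rfl

open scoped Classical in
theorem ubg_cs (s : G → ℕ) (J : Subgroup G) (h g0 : G) (hg : h⁻¹ * g0 ∈ J) :
    cs s J h = cs s J g0 := by
  unfold cs
  have hg' : g0⁻¹ * h ∈ J := by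
    have := J.inv_mem hg
    simpa using this
  refine Finset.sum_equiv (Equiv.mulLeft (g0⁻¹ * h)) ?_ ?_
  · intro j
    simp only [Finset.mem_filter, Finset.mem_univ, true_and, Equiv.coe_mulLeft]
    exact (J.mul_mem_cancel_left hg').symm
  · intro j _
    congr 1
    simp only [Equiv.coe_mulLeft]
    group

open scoped Classical in
theorem ubg_one (hCOS : ST_COS.{u}) (s : G → ℕ) (hG : GRF s) (z : G) (hz1 : z ≠ 1)
    (hz : s z = x0 s) (H J : Subgroup G) (hJH : J ≤ H) (hzH : z ∈ H) (hzJ : z ∉ J)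
    (hn : (J.subgroupOf H).Normal) (hc : IsCyclic (H ⧸ J.subgroupOf H)) :
    Nat.card H ∣ ∑ h ∈ Finset.univ.filter (fun h => h ∈ H ∧ h ≠ 1), s h + x0 s := by
  have hne : J ≠ H := by
    rintro rfl
    exact hzJ hzH
  have h1 := hG.cyc H J hJH hn hne hc
  obtain ⟨SJ, hSJ⟩ : ∃ SJ : ℕ, SJ = ∑ j ∈ Finset.univ.filter (fun j => j ∈ J ∧ j ≠ 1), s j :=
    ⟨_, rfl⟩
  have hcz : cs s J z = x0 s + SJ := by
    unfold cs
    rw [ubg_split J (fun j => s (z * j)), mul_one, hz, hSJ]
    congr 1
    apply Finset.sum_congr rfl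
    intro j hj
    rw [Finset.mem_filter] at hj
    obtain ⟨-, hjJ, hj1⟩ := hj
    have hzj : z * j ≠ 1 := by
      intro h
      apply hzJ
      have : z = j⁻¹ := eq_inv_of_mul_eq_one_left h
      rw [this]
      exact J.inv_mem hjJ
    have e1 := hG.rf.mul z j hz1 hj1 hzj
    have e2 := hG.rf.mul z⁻¹ (z * j) (inv_ne_one.mpr hz1) hzj (by simpa using hj1)
    rw [inv_mul_cancel_left, hG.rf.inv, hz] at e2
    rw [hz] at e1
    have e3 := ubg_le s j hj1
    have e4 := ubg_le s (z * j) hzj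
    rw [min_eq_right e3] at e1
    rw [min_eq_right e4] at e2
    exact le_antisymm e2 e1
  have hsup : (Finset.univ.filter (fun h => h ∈ H ∧ h ∉ J)).sup (fun h => cs s J h) =
      x0 s + SJ := by
    apply le_antisymm
    · apply Finset.sup_le
      intro h hh
      rw [Finset.mem_filter] at hh
      obtain ⟨-, hhH, hhJ⟩ := hh
      obtain ⟨g0, hg0J, hg0, -, hg2⟩ := hCOS G s hG.rf J h hhJ
      have hg01 : g0 ≠ 1 := by
        rintro rfl
        exact hg0J J.one_mem
      rw [ubg_cs s J h g0 hg0]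
      unfold cs
      rw [ubg_split J (fun j => s (g0 * j)), mul_one, hSJ]
      refine add_le_add (ubg_le s g0 hg01) ?_
      apply Finset.sum_le_sum
      intro j hj
      rw [Finset.mem_filter] at hj
      rw [hg2 j hj.2.1 hj.2.2]
      exact min_le_right _ _
    · rw [← hcz]
      exact Finset.le_sup (f := fun h => cs s J h) (by simp [hzH, hzJ])
  rw [hsup] at h1
  have e : ∑ h ∈ Finset.univ.filter (fun h => h ∈ H ∧ h ≠ 1), s h + x0 s =
      ∑ h ∈ Finset.univ.filter (fun h => h ∈ H ∧ h ∉ J), s h + (x0 s + SJ) := by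
    have : ∑ h ∈ Finset.univ.filter (fun h => h ∈ H ∧ h ≠ 1), s h =
        ∑ h ∈ Finset.univ.filter (fun h => h ∈ H ∧ h ∉ J), s h + SJ := by
      rw [hSJ, Finset.sum_filter, Finset.sum_filter, Finset.sum_filter,
        ← Finset.sum_add_distrib]
      apply Finset.sum_congr rfl
      intro h _
      by_cases hJ : h ∈ J
      · have hH := hJH hJ
        by_cases h1 : h = 1
        · simp [h1, J.one_mem]
        · simp [hJ, hH, h1]
      · have h1 : h ≠ 1 := by
          rintro rfl
          exact hJ J.one_mem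
        by_cases hH : h ∈ H
        · simp [hJ, hH, h1]
        · simp [hJ, hH]
    rw [this]
    ring
  rw [e]
  exact h1

end

open scoped commutatorElement in
theorem st_UBG (hCOS : ST_COS.{u}) (hOUT : ST_OUT.{u}) (hCENT : ST_CENT.{u})
    (hCHR : ST_CHR.{u}) : ST_UBG.{u} := by
  classical
  intro p hp G _ _ s hPG hnt hG
  obtain ⟨z, hzc, hzp, hzs⟩ := hCENT p G s hPG hnt hG.rf
  refine ⟨z, hzc, hzp, ?_⟩
  have hz1 : z ≠ 1 := by
    rintro rfl
    rw [orderOf_one] at hzp
    exact hp.out.one_lt.ne hzp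
  have key : ∀ H : Subgroup G, z ∈ H → z ∉ ⁅H, H⁆ → Nat.card H ∣ S1 s + x0 s := by
    intro H hzH hzc
    obtain ⟨J, hJH, hzJ, hn, hc⟩ := hCHR p G hPG H z hzH hzc
    have h1 := ubg_one hCOS s hG z hz1 hzs H J hJH hzH hzJ hn hc
    have h2 := hOUT p G s hPG hG H
    have e : S1 s + x0 s = (∑ h ∈ Finset.univ.filter (fun h => h ∈ H ∧ h ≠ 1), s h + x0 s) +
        ∑ g ∈ (Set.toFinite {g : G | g ∉ H}).toFinset, s g := by
      have : S1 s = ∑ h ∈ Finset.univ.filter (fun h => h ∈ H ∧ h ≠ 1), s h +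
          ∑ g ∈ (Set.toFinite {g : G | g ∉ H}).toFinset, s g := by
        have e1 : (Set.toFinite {g : G | g ∉ H}).toFinset =
            Finset.univ.filter (fun g => g ∉ H) := by
          ext x
          simp
        unfold S1
        rw [e1, Finset.sum_filter, Finset.sum_filter, Finset.sum_filter,
          ← Finset.sum_add_distrib]
        apply Finset.sum_congr rfl
        intro h _
        by_cases hH : h ∈ H
        · simp [hH]
        · have h1 : h ≠ 1 := by
            rintro rfl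
            exact hH H.one_mem
          simp [hH, h1]
      rw [this]
      ring
    rw [e]
    exact dvd_add h1 h2
  intro H hzH
  have hle : H ≤ H ⊔ Subgroup.zpowers z := le_sup_left
  have hcomm : ⁅H ⊔ Subgroup.zpowers z, H ⊔ Subgroup.zpowers z⁆ ≤ ⁅H, H⁆ := by
    have hcen : ∀ g : G, g * z = z * g := fun g => (Subgroup.mem_center_iff.mp hzc g)
    have hmem : ∀ x ∈ H ⊔ Subgroup.zpowers z, ∃ h ∈ H, ∃ n : ℤ, x = h * z ^ n := by
      intro x hx
      have hN : (Subgroup.zpowers z).Normal := by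
        constructor
        intro y hy g
        obtain ⟨n, rfl⟩ := Subgroup.mem_zpowers_iff.mp hy
        have hc : Commute g (z ^ n) := Commute.zpow_right (hcen g) n
        rw [hc.eq, mul_inv_cancel_right]
        exact Subgroup.zpow_mem _ (Subgroup.mem_zpowers z) n
      rw [Subgroup.mem_sup_of_normal_right] at hx
      obtain ⟨h, hh, y, hy, rfl⟩ := hx
      obtain ⟨n, rfl⟩ := Subgroup.mem_zpowers_iff.mp hy
      exact ⟨h, hh, n, rfl⟩
    rw [Subgroup.commutator_le]
    intro x hx y hy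
    obtain ⟨a, ha, m, rfl⟩ := hmem x hx
    obtain ⟨b, hb, n, rfl⟩ := hmem y hy
    have hc1 : ∀ (g : G) (m : ℤ), z ^ m * g = g * z ^ m := fun g m =>
      (Commute.zpow_right (hcen g) m).eq.symm
    have e : ⁅a * z ^ m, b * z ^ n⁆ = ⁅a, b⁆ := by
      rw [commutatorElement_def, commutatorElement_def]
      rw [mul_inv_rev, mul_inv_rev, ← zpow_neg, ← zpow_neg]
      calc a * z ^ m * (b * z ^ n) * (z ^ (-m) * a⁻¹) * (z ^ (-n) * b⁻¹)
          = a * (z ^ m * b) * (z ^ n * z ^ (-m)) * (a⁻¹ * z ^ (-n)) * b⁻¹ := by group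
        _ = a * (b * z ^ m) * (z ^ n * z ^ (-m)) * (z ^ (-n) * a⁻¹) * b⁻¹ := by
            rw [hc1 b m, hc1 a⁻¹ (-n)]
        _ = a * b * a⁻¹ * b⁻¹ := by group
    rw [e]
    exact Subgroup.commutator_mem_commutator ha hb
  have hz' : z ∉ ⁅H ⊔ Subgroup.zpowers z, H ⊔ Subgroup.zpowers z⁆ := fun h => hzH (hcomm h)
  exact (Subgroup.card_dvd_of_le hle).trans
    (key _ (Subgroup.mem_sup_right (Subgroup.mem_zpowers z)) hz')

end Pool.Agent.Helper21.DN
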