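import Mathlib
import Pool.Agent.Helper21.DN.Stmts

/-!
Module XM of the crew project on MP_b6a655_nt: elements `x_m` of valuation `m` with
`g x_m / x_m = g^m π / π`.
-/

set_option autoImplicit false

namespace Pool.Agent.Helper21.DN

universe u

theorem st_XM (hS1 : ST_S1.{u}) : ST_XM.{u} := by
  intro p hp k K L _ _ _ _ _ _ _ κ v hv hPL g
  obtain ⟨π, hπ⟩ := hv.tv.unif
  have hπ1 : v π = ((1 : ℤ) : WithTop ℤ) := by simpa using hπ
  have hπ0 : π ≠ 0 := by
    rintro rfl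
    rw [v.map_zero] at hπ1
    exact WithTop.top_ne_coe hπ1
  have hit : ∀ (σ : L ≃ₐ[K] L) (n : ℕ) (x : L), (⇑σ)^[n] x = (σ ^ n) x := by
    intro σ n
    induction n with
    | zero => intro x; simp
    | succ n ih =>
      intro x
      rw [Function.iterate_succ_apply', ih, pow_succ']
      rfl
  have key : ∀ σ : L ≃ₐ[K] L, σ ≠ 1 → v (σ π - π) = ((1 + s v σ : ℤ) : WithTop ℤ) := by
    intro σ hσ
    have hex : ∃ x, σ x ≠ x := by
      by_contra hcon
      push Not at hcon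
      exact hσ (AlgEquiv.ext hcon)
    obtain ⟨N, hN⟩ := hPL σ
    have h := hS1 p k L ((algebraMap K L).comp κ) v hv.tv (σ : L →+* L)
      (fun c => σ.commutes (κ c)) (fun x => hv.inv σ x)
      ⟨N, fun x => by
        have h2 := hit σ (p ^ N) x
        rw [hN] at h2
        exact h2⟩ hex
    refine h.2.2 π 1 hπ1 ?_
    intro hdvd
    have h1 := Int.natCast_dvd_natCast.mp (by exact_mod_cast hdvd : ((p : ℕ) : ℤ) ∣ ((1 : ℕ) : ℤ))
    exact hp.out.one_lt.ne' (Nat.dvd_one.mp h1)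
  obtain ⟨x, hx⟩ : ∃ x : ℕ → L, ∀ m, x m = ∏ j ∈ Finset.range m, (g ^ j) π := ⟨_, fun m => rfl⟩
  have hx0 : x 0 = 1 := by rw [hx]; simp
  have hsucc : ∀ m, x (m + 1) = x m * (g ^ m) π := by
    intro m
    rw [hx, hx, Finset.prod_range_succ]
  have hgx : ∀ m, π * g (x m) = x m * (g ^ m) π := by
    intro m
    induction m with
    | zero => rw [hx0]; simp
    | succ m ih =>
      rw [hsucc, map_mul, ← mul_assoc, ih]
      have : g ((g ^ m) π) = (g ^ (m + 1)) π := by
        rw [pow_succ']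
        rfl
      rw [this]
  have hvx : ∀ m : ℕ, v (x m) = ((m : ℤ) : WithTop ℤ) := by
    intro m
    induction m with
    | zero => rw [hx0, v.map_one]; simp
    | succ m ih =>
      rw [hsucc, v.map_mul, ih, hv.inv, hπ1]
      norm_cast
  refine ⟨x, hx0, hvx, ?_⟩
  intro m hm
  have h1 : π * (g (x m) - x m) = x m * ((g ^ m) π - π) := by
    rw [mul_sub, hgx, mul_sub, mul_comm π (x m)]
  have h2 := congrArg v h1
  rw [v.map_mul, v.map_mul, hπ1, hvx, key _ hm] at h2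
  have h3 : v (g (x m) - x m) ≠ ⊤ := by
    intro h
    rw [h, WithTop.add_top] at h2
    have h4 : (⊤ : WithTop ℤ) = (((m : ℤ) + (1 + (s v ⇑(g ^ m) : ℤ)) : ℤ) : WithTop ℤ) := by
      rw [h2]
      norm_cast
    exact WithTop.top_ne_coe h4
  obtain ⟨a, ha⟩ := WithTop.ne_top_iff_exists.mp h3
  rw [← ha] at h2 ⊢
  have h5 : 1 + a = (m : ℤ) + (1 + (s v ⇑(g ^ m) : ℤ)) := by exact_mod_cast h2
  have h6 : a = (m : ℤ) + (s v ⇑(g ^ m) : ℤ) := by linarith
  rw [h6]

end Pool.Agent.Helper21.DN
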